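import Pool.Agent.H34.Rect.Final

/-!
# Small monochromatic rectangles in a 2-coloured plane

Every 2-colouring of the plane contains a monochromatic `m × n` rectangle with `m ∈ {1, 2}` and
`n ∈ {1, 2, 3}`.
-/

namespace Pool.Agent.Results.MP_f86233_co.SThree

open Complex H34.Rect

/-- The Euclidean plane. -/
abbrev Plane : Type := EuclideanSpace ℝ (Fin 2)

/-- A `d₁ × d₂` rectangle: a set congruent, by an isometry of the plane, to
`{(0,0), (d₁,0), (0,d₂), (d₁,d₂)}`. -/
def IsRectangle (d₁ d₂ : ℝ) (R : Set Plane) : Prop :=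
  ∃ φ : Plane ≃ᵢ Plane, R = φ '' {!₂[0, 0], !₂[d₁, 0], !₂[0, d₂], !₂[d₁, d₂]}

/-- A set is monochromatic if all of its points receive the same colour. -/
def Monochromatic (c : Plane → Bool) (R : Set Plane) : Prop :=
  ∃ k : Bool, ∀ x ∈ R, c x = k

/-- The statement `S(N)`: every 2-colouring of the plane contains a monochromatic `m × n` rectangle
for some `m ∈ {1, 2}` and some integer `n` with `1 ≤ n ≤ N`. -/
def S (N : ℕ) : Prop :=
  ∀ c : Plane → Bool, ∃ m n : ℕ, (m = 1 ∨ m = 2) ∧ 1 ≤ n ∧ n ≤ N ∧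
    ∃ R : Set Plane, IsRectangle m n R ∧ Monochromatic c R

/-- The identification of the complex plane with the Euclidean plane. -/
noncomputable def E : ℂ ≃ₗᵢ[ℝ] Plane := Complex.orthonormalBasisOneI.repr

/-- The isometry `p ↦ z + u p` (in complex coordinates). -/
noncomputable def mv (u : Circle) (z : ℂ) : Plane ≃ᵢ Plane :=
  E.symm.toIsometryEquiv.trans
    ((rotation u).toIsometryEquiv.trans ((IsometryEquiv.addLeft z).trans E.toIsometryEquiv))

lemma mv_apply (u : Circle) (z : ℂ) (a b : ℝ) :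
    mv u z !₂[a, b] = E (z + u * (a + b * I)) := by
  have h : E.symm !₂[a, b] = (a : ℂ) + b * I := by
    rw [LinearIsometryEquiv.symm_apply_eq]
    ext i
    fin_cases i <;> simp [E]
  show E (z + rotation u (E.symm !₂[a, b])) = _
  rw [h, rotation_apply]

lemma mono_of {c : Plane → Bool} (H : ∀ m n : ℕ, (m = 1 ∨ m = 2) → 1 ≤ n → n ≤ 3 →
      ∀ R, IsRectangle m n R → ¬ Monochromatic c R) (m n : ℕ) (hm : m = 1 ∨ m = 2)
    (hn : 1 ≤ n) (hn' : n ≤ 3) (u : Circle) (z : ℂ) :
    mono4 (c (E z)) (c (E (z + u * (n * I)))) (c (E (z + u * m)))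
      (c (E (z + u * (m + n * I)))) = false := by
  rw [← Bool.not_eq_true]
  intro h
  simp only [mono4, Bool.and_eq_true, beq_iff_eq] at h
  obtain ⟨h1, h2, h3⟩ := h
  refine H m n hm hn hn' _ ⟨mv u z, rfl⟩ ⟨c (E z), ?_⟩
  rintro _ ⟨p, hp, rfl⟩
  simp only [Set.mem_insert_iff, Set.mem_singleton_iff] at hp
  rcases hp with rfl | rfl | rfl | rfl
  · rw [mv_apply]; simp
  · rw [mv_apply]
    have e : z + u * (((m : ℝ) : ℂ) + ((0 : ℝ) : ℂ) * I) = z + u * m := by
      push_cast; ring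
    rw [e]; exact (h1.trans h2).symm
  · rw [mv_apply]
    have e : z + u * (((0 : ℝ) : ℂ) + ((n : ℝ) : ℂ) * I) = z + u * (n * I) := by
      push_cast; ring
    rw [e]; exact h1.symm
  · rw [mv_apply]
    have e : z + u * (((m : ℝ) : ℂ) + ((n : ℝ) : ℂ) * I) = z + u * (m + n * I) := by
      push_cast; ring
    rw [e]; exact (h1.trans (h2.trans h3)).symm

lemma latPt_eq (x y : ℕ) : latPt 0 1 x y = (x : ℂ) + y * I := by
  apply Complex.ext <;> simp [latPt]

theorem S_three : S 3 := by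
  by_contra hS
  simp only [S, not_forall] at hS
  obtain ⟨c, hc⟩ := hS
  have H : ∀ m n : ℕ, (m = 1 ∨ m = 2) → 1 ≤ n → n ≤ 3 →
      ∀ R, IsRectangle m n R → ¬ Monochromatic c R := by
    intro m n hm hn hn' R hR hmono
    exact hc ⟨m, n, hm, hn, hn', R, hR, hmono⟩
  refine contra (c := fun z => c (E z)) ?_
  intro u z x y x' y' hok
  simp only [latPt_eq]
  have key : (∃ m n : ℕ, (m = 1 ∨ m = 2) ∧ 1 ≤ n ∧ n ≤ 3 ∧ x' = x + m ∧ y' = y + n) ∨
      (∃ m n : ℕ, (m = 1 ∨ m = 2) ∧ 1 ≤ n ∧ n ≤ 3 ∧ x' = x + n ∧ y' = y + m) := by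
    simp only [okb, Bool.or_eq_true, Bool.and_eq_true, beq_iff_eq] at hok
    rcases hok with (⟨h, h'⟩ | ⟨h, h'⟩) | ⟨h, h'⟩
    · exact Or.inl ⟨1, y' - y, by omega, by omega, by omega, by omega, by omega⟩
    · exact Or.inl ⟨2, y' - y, by omega, by omega, by omega, by omega, by omega⟩
    · exact Or.inr ⟨y' - y, 3, by omega, by omega, by omega, by omega, by omega⟩
  rcases key with ⟨m, n, hm, hn, hn', rfl, rfl⟩ | ⟨m, n, hm, hn, hn', rfl, rfl⟩
  · have := mono_of H m n hm hn hn' u (z + u * ((x : ℂ) + y * I))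
    have e1 : z + u * ((x : ℂ) + y * I) + u * (n * I) = z + u * ((x : ℂ) + (y + n : ℕ) * I) := by
      push_cast; ring
    have e2 : z + u * ((x : ℂ) + y * I) + u * m = z + u * ((x + m : ℕ) + y * I) := by
      push_cast; ring
    have e3 : z + u * ((x : ℂ) + y * I) + u * (m + n * I)
        = z + u * ((x + m : ℕ) + (y + n : ℕ) * I) := by
      push_cast; ring
    rw [e1, e2, e3] at this
    exact this
  · -- the rectangle is rotated by a quarter turn
    let w : Circle := ⟨I, by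
      show I ∈ Metric.sphere (0 : ℂ) 1
      rw [mem_sphere_zero_iff_norm, Complex.norm_I]⟩
    have hw : ((u * w : Circle) : ℂ) = u * I := rfl
    have := mono_of H m n hm hn hn' (u * w) (z + u * ((x + n : ℕ) + y * I))
    rw [hw] at this
    have e0 : z + u * (((x + n : ℕ) : ℂ) + y * I) + u * I * (n * I)
        = z + u * ((x : ℂ) + y * I) := by
      push_cast; linear_combination (u : ℂ) * n * Complex.I_mul_I
    have e1 : z + u * (((x + n : ℕ) : ℂ) + y * I) + u * I * m
        = z + u * ((x + n : ℕ) + (y + m : ℕ) * I) := by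
      push_cast; ring
    have e2 : z + u * (((x + n : ℕ) : ℂ) + y * I) + u * I * (m + n * I)
        = z + u * ((x : ℂ) + (y + m : ℕ) * I) := by
      push_cast; linear_combination (u : ℂ) * n * Complex.I_mul_I
    rw [e0, e1, e2] at this
    revert this
    generalize c (E (z + u * ((x : ℂ) + y * I))) = a1
    generalize c (E (z + u * ((x : ℂ) + (y + m : ℕ) * I))) = a2
    generalize c (E (z + u * (((x + n : ℕ) : ℂ) + y * I))) = a3
    generalize c (E (z + u * (((x + n : ℕ) : ℂ) + (y + m : ℕ) * I))) = a4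
    revert a1 a2 a3 a4
    decide

/-- `S(N)` holds for all `N ≥ 3`; in particular `S(4)` holds. -/
theorem result : ∀ N : ℕ, 3 ≤ N → S N := by
  intro N hN c
  obtain ⟨m, n, hm, hn, hn', R, hR⟩ := S_three c
  exact ⟨m, n, hm, hn, hn'.trans hN, R, hR⟩

end Pool.Agent.Results.MP_f86233_co.SThree
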